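import Mathlib
import Pool.Agent.H750F.Sky1
import Pool.Agent.H750F.Sky2

/-!
# Banach's problem on a probability space: part A (model and Hilbert space side), definitions
-/

namespace Pool.Agent.H264R4.BA

open MeasureTheory Set Filter Topology
open scoped ENNReal BigOperators Real

noncomputable section

/-- Combinatorial data of the construction: level `k` has classes `Th k`, all towers of level `k`
have height `h k` and base measure `β k`; a tower of level `k+1` and class `c'` consists of `M k`
towers of level `k`, the `i`-th one of class `cl k i`, starting at `pos k c' i`. -/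
structure OD where
  Th : ℕ → Type
  [ft : ∀ k, Fintype (Th k)]
  [de : ∀ k, DecidableEq (Th k)]
  h : ℕ → ℕ
  M : ℕ → ℕ
  β : ℕ → ℝ
  cl : ∀ k, Fin (M k) → Th k
  pos : ∀ k, Th (k + 1) → Fin (M k) → ℕ
  two_le : ∀ k, 2 ≤ M k
  h_zero : h 0 = 1
  card_zero : Fintype.card (Th 0) = 1
  pos_zero : ∀ k c (i : Fin (M k)), (i : ℕ) = 0 → pos k c i = 0
  pos_gap : ∀ k c (i j : Fin (M k)), i < j → pos k c i + h k ≤ pos k c j
  pos_top : ∀ k c (i : Fin (M k)), pos k c i + h k ≤ h (k + 1)
  bal : ∀ k (c : Th k),
    (Finset.univ.filter (fun i => cl k i = c)).card * Fintype.card (Th k) = M k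
  β_pos : 0 < β 0
  β_succ : ∀ k, β (k + 1) * (M k : ℝ) * (Fintype.card (Th (k + 1)) : ℝ)
    = β k * (Fintype.card (Th k) : ℝ)
  mass : Tendsto (fun k => β k * (Fintype.card (Th k) : ℝ) * (h k : ℝ)) atTop (𝓝 1)

attribute [instance] OD.ft OD.de

variable (D : OD)

/-- the space of the odometer -/
abbrev Bs : Type := ∀ k, Fin (D.M k)

/-- the digit `k` of `y` is the last one -/
def Last (y : Bs D) (k : ℕ) : Prop := (y k : ℕ) + 1 = D.M k

/-- addition of one with carry -/
def odo (y : Bs D) : Bs D := fun k =>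
  open Classical in
  if ∀ j < k, Last D y j then
    (if h : (y k : ℕ) + 1 < D.M k then ⟨(y k : ℕ) + 1, h⟩
      else ⟨0, lt_of_lt_of_le Nat.zero_lt_two (D.two_le k)⟩)
  else y k

/-- uniform measure on the digits -/
def un (k : ℕ) : Measure (Fin (D.M k)) := (D.M k : ℝ≥0∞)⁻¹ • Measure.count

instance instUn (k : ℕ) : IsProbabilityMeasure (un D k) := by
  constructor
  have h2 := D.two_le k
  have h3 : (D.M k : ℝ≥0∞) ≠ 0 := by
    simp; omega
  simp [un, ENNReal.inv_mul_cancel h3 (ENNReal.natCast_ne_top _)]

/-- the uniform product measure -/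
def pm : Measure (Bs D) := Measure.infinitePi (un D)

instance instPm : IsProbabilityMeasure (pm D) := by unfold pm; infer_instance

/-- contribution of level `k` to the position -/
def pp (k : ℕ) (y : Bs D) : ℕ := D.pos k (D.cl (k + 1) (y (k + 1))) (y k)

/-- position of the point `y` of the base inside its tower of level `K` -/
def t (K : ℕ) (y : Bs D) : ℕ := ∑ j ∈ Finset.range K, pp D j y

/-- the return time to the base -/
def roof (y : Bs D) : ℕ :=
  open Classical in
  if h : ∃ k, ¬ Last D y k then t D (Nat.find h + 1) (odo D y) - t D (Nat.find h + 1) y else 1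

/-- level `n` of the tower of level `k` and class `c` (as a subset of the skyscraper) -/
def Lv (k : ℕ) (c : D.Th k) (n : ℕ) : Set (Bs D × ℕ) :=
  {p | p.2 < roof D p.1 ∧ D.cl k (p.1 k) = c ∧ t D k p.1 + p.2 = n}

/-- the measure of the phase space (identity above the roof, measure zero there) -/
def mu : Measure (Bs D × ℕ) := ENNReal.ofReal (D.β 0) • Pool.Agent.H750F.Sky.mu (pm D) (roof D)

/-- the model: a measure preserving skyscraper over the odometer -/
structure Model where
  S : Bs D ≃ᵐ Bs D
  hS : ∀ y, S y = odo D y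
  T : (Bs D × ℕ) ≃ᵐ (Bs D × ℕ)
  hT : ∀ p, T p = if p.2 < roof D p.1 then
    (if p.2 + 1 < roof D p.1 then (p.1, p.2 + 1) else (odo D p.1, 0)) else p
  mp : MeasurePreserving T (mu D) (mu D)

/-- the union of levels -/
def LS (k : ℕ) (A : D.Th k → Finset ℕ) : Set (Bs D × ℕ) := ⋃ c, ⋃ n ∈ A c, Lv D k c n

end

end Pool.Agent.H264R4.BA
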