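import Pool.Agent.H264R4.BA.Defs
import Pool.Agent.H728R2.BL.Defs

/-!
# Banach's problem on a probability space: part A, Hilbert space side, definitions
-/

namespace Pool.Agent.H264R4.BA

open MeasureTheory Set Filter Topology Pool.Agent.H728R2.BL
open scoped ENNReal BigOperators Real

noncomputable section

/-- the combinatorial data attached to a good sequence of levels -/
def toOD (L : ℕ → Lev) (σ : ∀ k, DStep (L k) (L (k + 1))) (G : Good L σ) : OD where
  Th := fun k => (L k).Θ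
  h := fun k => (L k).h
  M := fun k => (σ k).M
  β := fun k => (L k).β
  cl := fun k => (σ k).cl
  pos := fun k => (σ k).pos
  two_le := fun k => (σ k).hM
  h_zero := G.h0
  card_zero := G.card0
  pos_zero := fun k c i hi => (σ k).pos0 c i hi
  pos_gap := fun k c i j hij => (σ k).sep c i j hij
  pos_top := fun k c i => (σ k).top c i
  bal := fun k c => (σ k).bal c
  β_pos := (L 0).βpos
  β_succ := fun k => (σ k).hβ
  mass := G.mass

section Hilbert

variable {H : Type*} [NormedAddCommGroup H] [InnerProductSpace ℂ H]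

/-- indicator vector of a set of levels -/
def VS (U : H ≃ₗᵢ[ℂ] H) {Θ : Type} [Fintype Θ] (v : Θ → H) (A : Θ → Finset ℕ) : H :=
  ∑ c, ∑ n ∈ A c, (U ^ (n : ℤ)) (v c)

/-- `p(U) v` -/
def PU (U : H ≃ₗᵢ[ℂ] H) (p : ℤ →₀ ℂ) (v : H) : H := p.sum fun n a => a • (U ^ n) v

/-- the base of the column `c`, as a set of levels -/
def sgl {Θ : Type} [DecidableEq Θ] (c : Θ) : Θ → Finset ℕ := fun d => if d = c then {0} else ∅

/-- Hilbert space data of the model: `v k c` is the indicator function of the base of the column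
`c` of level `k`, `one` the constant function -/
structure HD (L : ℕ → Lev) (σ : ∀ k, DStep (L k) (L (k + 1))) (U : H ≃ₗᵢ[ℂ] H)
    (v : (k : ℕ) → (L k).Θ → H) (one : H) : Prop where
  refine : ∀ k (c : (L k).Θ), v k c
    = ∑ c' : (L (k + 1)).Θ, ∑ i ∈ Finset.univ.filter (fun i => (σ k).cl i = c),
        (U ^ ((σ k).pos c' i : ℤ)) (v (k + 1) c')
  corr : ∀ k (A B : (L k).Θ → Finset ℕ), (∀ c, ∀ a ∈ A c, a < (L k).h) →
    (∀ c, ∀ b ∈ B c, b < (L k).h) → ∀ m : ℕ, ∃ δ : ℝ, 0 ≤ δ ∧ δ ≤ (m : ℝ) / ((L k).h : ℝ) ∧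
      inner ℂ ((U ^ (m : ℤ)) (VS U (v k) A)) (VS U (v k) B)
        = (((L k).β * (∑ c, ((A c).filter (fun a => a + m ∈ B c)).card : ℕ) + δ : ℝ) : ℂ)
  total : ∀ u : H, (∀ k (c : (L k).Θ) (n : ℤ), inner ℂ ((U ^ n) (v k c)) u = 0) → u = 0
  fixed : ∀ u : H, U u = u → inner ℂ one u = 0 → u = 0
  one_norm : ‖one‖ = 1
  one_fix : U one = one

end Hilbert

end

end Pool.Agent.H264R4.BA
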